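import Mathlib
import Pool.Agent.Helper93.LipDefs

/-!
# When is `Lip₀(E)` isomorphic to `Lip₀(ℓ₁(κ))`?

Let `E` be an infinite-dimensional Banach space of density character `κ`.  Then `Lip₀(E)` is
isomorphic to `Lip₀(ℓ₁(κ))` if and only if `Lip₀(ℓ₁)` is isomorphic to a complemented subspace of
`Lip₀(E)`, and if and only if all finite-dimensional normed spaces are uniformly complemented in
`Lip₀(E)`.  In particular this is the case if `E` contains uniformly complemented copies of the
spaces `ℓ₁^n`; so Q1 has no positive answer within the class of all such spaces.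
-/

set_option autoImplicit false

namespace Pool.Agent.Results.MP_f13e4b_an.LargestType

open Pool.Agent.Helper93 Cardinal
open scoped ENNReal

universe u

/-- `E` contains uniformly complemented copies of `ℓ₁^n`: there is `C` such that for all `n` the
identity of `ℓ₁^n` factors through `E` by operators of norm at most `C`. -/
def ContainsL1nUniformlyComplemented (E : Type u) [NormedAddCommGroup E] [NormedSpace ℝ E] :
    Prop :=
  ∃ C : ℝ, ∀ n : ℕ, UC C (PiLp 1 (fun _ : Fin n => ℝ)) E

/-- For an infinite-dimensional Banach space `E` whose density character is the cardinality of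
`K`: the space `Lip₀(E)` is isomorphic to `Lip₀(ℓ₁(K))` if and only if the identity of `Lip₀(ℓ₁)`
factors through `Lip₀(E)`, if and only if all finite-dimensional normed spaces are uniformly
complemented in `Lip₀(E)`; and this holds if `E` contains uniformly complemented copies of
`ℓ₁^n`. -/
theorem result (K : Type u) [Infinite K] (E : Type u) [NormedAddCommGroup E] [NormedSpace ℝ E]
    [CompleteSpace E] (hE : ¬ FiniteDimensional ℝ E) (hd : dens E = #K) :
    List.TFAE [Nonempty (Lip0 E ≃L[ℝ] Lip0 (Ell1 K)), CE (Lip0 (Ell1 ℕ)) (Lip0 E), LocUniv E] ∧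
    (ContainsL1nUniformlyComplemented E → Nonempty (Lip0 E ≃L[ℝ] Lip0 (Ell1 K))) := by
  have hE1 : ¬ FiniteDimensional ℝ (Ell1 K) := lp_not_finiteDimensional 1 ENNReal.one_ne_top K
  have hd1 : dens (Ell1 K) = #K := dens_lp 1 K ENNReal.one_ne_top
  have hiso : LipUniv E → Nonempty (Lip0 E ≃L[ℝ] Lip0 (Ell1 K)) := fun h =>
    h.equiv (lipUniv_l1 K) hE hE1 (by rw [hd, hd1])
  refine ⟨?_, fun h => hiso (LipUniv.of_l1n h)⟩
  tfae_have 1 → 2 := by
    rintro ⟨e⟩
    have hs1 : TopologicalSpace.SeparableSpace (Ell1 ℕ) := lp_separable 1 ENNReal.one_ne_top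
    have hs1' : TopologicalSpace.SeparableSpace (ULift.{u} (Ell1 ℕ)) := ulift_sep (Ell1 ℕ)
    have hl1 : ¬ FiniteDimensional ℝ (ULift.{u} (Ell1 ℕ)) :=
      ulift_fd _ (lp_not_finiteDimensional 1 ENNReal.one_ne_top ℕ)
    have h1 : CE (Lip0 (ULift.{u} (Ell1 ℕ))) (Lip0 (Ell1 K)) :=
      (lipUniv_l1 K).ce hE1 (by
        rw [dens_eq_aleph0 hl1, hd1]
        exact Cardinal.aleph0_le_mk K)
    exact ((CE.of_equiv (lipCongr ContinuousLinearEquiv.ulift.symm)).trans h1).trans
      (CE.of_equiv e.symm)
  tfae_have 2 → 3 := fun h => ((lipUniv_l1 ℕ).of_ce h).loc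
  tfae_have 3 → 1 := fun h => hiso (h.lip hE)
  tfae_finish

end Pool.Agent.Results.MP_f13e4b_an.LargestType
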