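import Mathlib
import Pool.Agent.Helper93.LipDefs

/-!
# The isomorphism question for `Lip₀(E)` reduces to `ℓ₁` and `ℓ₂`

All the spaces `Lip₀(E)` with `E` infinite-dimensional of a given density character are isomorphic
(for all densities) if and only if this holds for separable `E`, if and only if `Lip₀(ℓ₁)` and
`Lip₀(ℓ₂)` are isomorphic, and if and only if all finite-dimensional normed spaces are uniformly
complemented in `Lip₀(ℓ₂)`.

Ingredients: `Lip₀(Y)` is complemented in an `ℓ_∞`-sum of `dens Y` many spaces `Lip₀(V)`, `V ⊆ Y`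
finite-dimensional (file `LocalDet`); the `ℓ_∞`-sum of `dens E` many copies of `Lip₀(E)` is
complemented in `Lip₀(E)` (files `SepVec`, `GlueGen`); finite-dimensional spaces are quotients of
`ℓ₁^m`, and `Lip₀` of a quotient is complemented in `Lip₀` of the space (files `TransferUC`,
`L1Quot`); `Lip₀(ℓ₁^n)` is complemented in an `ℓ_∞`-sum of finite-dimensional spaces (file
`Interp`); `Lip₀(ℓ₂)` is complemented in `Lip₀(E)` for every infinite-dimensional `E` (file
`Final`); Pełczyński's decomposition method (file `Compl`).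
-/

set_option autoImplicit false

namespace Pool.Agent.Results.MP_f13e4b_an.Reduction

open Pool.Agent.Helper93
open scoped ENNReal

universe u

/-- The negated form of Q1: for infinite-dimensional Banach spaces `E` and `F` of the same density
character (in the universe `u`) the spaces `Lip₀(E)` and `Lip₀(F)` are isomorphic. -/
def AllIsomorphic : Prop :=
  ∀ (E F : Type u) [NormedAddCommGroup E] [NormedSpace ℝ E] [CompleteSpace E]
    [NormedAddCommGroup F] [NormedSpace ℝ F] [CompleteSpace F],
    ¬ FiniteDimensional ℝ E → ¬ FiniteDimensional ℝ F → dens E = dens F →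
      Nonempty (Lip0 E ≃L[ℝ] Lip0 F)

/-- The same statement for separable Banach spaces only. -/
def AllSeparableIsomorphic : Prop :=
  ∀ (E F : Type u) [NormedAddCommGroup E] [NormedSpace ℝ E] [CompleteSpace E]
    [NormedAddCommGroup F] [NormedSpace ℝ F] [CompleteSpace F]
    [TopologicalSpace.SeparableSpace E] [TopologicalSpace.SeparableSpace F],
    ¬ FiniteDimensional ℝ E → ¬ FiniteDimensional ℝ F → Nonempty (Lip0 E ≃L[ℝ] Lip0 F)

/-- The negated form of Q1 (for all densities) holds if and only if it holds for separable spaces,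
if and only if `Lip₀(ℓ₁)` and `Lip₀(ℓ₂)` are isomorphic, and if and only if all finite-dimensional
normed spaces are uniformly complemented in `Lip₀(ℓ₂)`. -/
theorem result :
    List.TFAE [AllIsomorphic.{u}, AllSeparableIsomorphic.{u},
      Nonempty (Lip0 (Ell1 ℕ) ≃L[ℝ] Lip0 (Ell2 ℕ)), LocUniv (Ell2 ℕ)] := by
  have h2top : (2 : ℝ≥0∞) ≠ ∞ := ENNReal.ofNat_ne_top
  have hl1 : ¬ FiniteDimensional ℝ (Ell1 ℕ) := lp_not_finiteDimensional 1 ENNReal.one_ne_top ℕ
  have hl2 : ¬ FiniteDimensional ℝ (Ell2 ℕ) := lp_not_finiteDimensional 2 h2top ℕ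
  have hs1 : TopologicalSpace.SeparableSpace (Ell1 ℕ) := lp_separable 1 ENNReal.one_ne_top
  have hs2 : TopologicalSpace.SeparableSpace (Ell2 ℕ) := lp_separable 2 h2top
  tfae_have 1 → 2 := by
    intro h E F _ _ _ _ _ _ _ _ hE hF
    exact h E F hE hF (by rw [dens_eq_aleph0 hE, dens_eq_aleph0 hF])
  tfae_have 2 → 3 := by
    intro h
    have hs1' : TopologicalSpace.SeparableSpace (ULift.{u} (Ell1 ℕ)) := ulift_sep (Ell1 ℕ)
    have hs2' : TopologicalSpace.SeparableSpace (ULift.{u} (Ell2 ℕ)) := ulift_sep (Ell2 ℕ)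
    obtain ⟨e⟩ := h (ULift.{u} (Ell1 ℕ)) (ULift.{u} (Ell2 ℕ)) (ulift_fd _ hl1) (ulift_fd _ hl2)
    exact ⟨((lipCongr ContinuousLinearEquiv.ulift.symm).trans e).trans
      (lipCongr ContinuousLinearEquiv.ulift)⟩
  tfae_have 3 → 4 := by
    rintro ⟨e⟩
    exact ((lipUniv_l1 ℕ).of_ce (CE.of_equiv e)).loc
  tfae_have 4 → 1 := by
    intro h E F _ _ _ _ _ _ hE hF hd
    have h3 : LipUniv (Ell2 ℕ) := h.lip hl2
    have key : ∀ (X : Type u) [NormedAddCommGroup X] [NormedSpace ℝ X],
        ¬ FiniteDimensional ℝ X → LipUniv X := fun X _ _ hX =>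
      h3.of_ce (main_operators X hX (Ell2 ℕ))
    exact (key E hE).equiv (key F hF) hE hF hd
  tfae_finish

end Pool.Agent.Results.MP_f13e4b_an.Reduction
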