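import Mathlib
import Pool.Agent.Helper93.LipDefs

/-!
# `Lip₀(E)` lies between `Lip₀(ℓ₂(κ))` and `Lip₀(ℓ₁(κ))`

For every infinite-dimensional Banach space `E` of density character `κ`, the space `Lip₀(ℓ₂(κ))`
is isomorphic to a complemented subspace of `Lip₀(E)`, and `Lip₀(E)` is isomorphic to a
complemented subspace of `Lip₀(ℓ₁(κ))`.
-/

set_option autoImplicit false

namespace Pool.Agent.Results.MP_f13e4b_an.Sandwich

open Pool.Agent.Helper93 Cardinal
open scoped ENNReal

universe u

/-- For every infinite-dimensional Banach space `E` whose density character is the cardinality of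
`K`: the identity of `Lip₀(ℓ₂(K))` factors through `Lip₀(E)`, and the identity of `Lip₀(E)`
factors through `Lip₀(ℓ₁(K))`. -/
theorem result (K : Type u) [Infinite K] (E : Type u) [NormedAddCommGroup E] [NormedSpace ℝ E]
    [CompleteSpace E] (hE : ¬ FiniteDimensional ℝ E) (hd : dens E = #K) :
    CE (Lip0 (Ell2 K)) (Lip0 E) ∧ CE (Lip0 E) (Lip0 (Ell1 K)) := by
  have h2top : (2 : ℝ≥0∞) ≠ ∞ := ENNReal.ofNat_ne_top
  have hE1 : ¬ FiniteDimensional ℝ (Ell1 K) := lp_not_finiteDimensional 1 ENNReal.one_ne_top K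
  have hd1 : dens (Ell1 K) = #K := dens_lp 1 K ENNReal.one_ne_top
  have hd2 : dens (Ell2 K) = #K := dens_lp 2 K h2top
  exact ⟨hilbert_ce hE (by rw [hd, hd2]), (lipUniv_l1 K).ce hE1 (by rw [hd, hd1])⟩

end Pool.Agent.Results.MP_f13e4b_an.Sandwich
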